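import Mathlib
import Pool.Agent.Helper64.Chi.NonEx2
import Pool.Agent.Helper64.Chi.Movie

/-!
# The orders of the Whitehead link and of the Borromean rings under `χ`-concordance

Links are given by planar signed Gauss codes, up to Reidemeister moves, and properly embedded
surfaces in the 4-ball by movies of such codes (see `Pool.Agent.Helper64.Chi.Defs`, which has all
the definitions).

In the group of marked oriented links as well as in the group of partly oriented links the
Whitehead link has infinite order and the Borromean rings have order two, whatever component is
marked and whatever the orientations.

Proof idea. Put integer labels on the unmarked components, which jump where the component passes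
under the marked one, and labels in a ring `R` on the marked component, which jump where it passes
over an unmarked one. If all the labels close up, a certain quadratic expression in the labels,
summed over all crossings (`Psi`), is invariant under Reidemeister moves. If the link bounds a disc
and annuli, or with `R = ℤ/2` a disc, annuli and Möbius bands, then by induction along the movie
there are labels for which it vanishes (`exists_deco`). It is `1` for the Whitehead link and for
the Borromean rings, for all labels, and components can be ignored, so that
* a Möbius band bounded by one of the unmarked components of a multiple of the Whitehead link would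
  give `1 = 0` in `ℤ/2`, and an annulus bounded by two of them would give `2 = 0` in `ℤ`;
* the Borromean rings would give `1 = 0` in `ℤ/2`.

Conversely, the Borromean rings are isotopic to the closure of the inverse braid, with reversed
orientations, and so twice the Borromean rings are turned into the closure of `β β⁻¹` by two
saddles.
-/

set_option autoImplicit false

namespace Pool.Agent.Results.MP_c6a83c_gt.ChiOrders

open Pool.Agent.Helper64.Chi

/-- The Whitehead link has infinite order and the Borromean rings have order two, in the group of
marked oriented links and in the group of partly oriented links modulo `χ`-concordance, for every
choice of the marked component and of the orientations. -/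
theorem result :
    (∀ L ∈ choices whitehead, ∀ n : ℕ, 1 ≤ n → ¬ ZeroMarked L n ∧ ¬ ZeroPartly L n) ∧
    (∀ L ∈ choices borromean, IsLeast {n : ℕ | 1 ≤ n ∧ ZeroMarked L n} 2 ∧
      IsLeast {n : ℕ | 1 ≤ n ∧ ZeroPartly L n} 2) := by
  refine ⟨fun L hL n hn => whitehead_infinite hL hn, fun L hL => ?_⟩
  obtain ⟨h1, h2⟩ := borromean_one hL
  have h3 := borromean_two hL
  have h4 : ZeroPartly L 2 := zeroPartly_of_zeroMarked hL h3
  constructor
  · refine ⟨⟨by norm_num, h3⟩, fun n hn => ?_⟩
    rcases Nat.lt_or_ge n 2 with h | h
    · have : n = 1 := le_antisymm (by omega) hn.1
      subst this
      exact absurd hn.2 h1
    · exact h
  · refine ⟨⟨by norm_num, h4⟩, fun n hn => ?_⟩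
    rcases Nat.lt_or_ge n 2 with h | h
    · have : n = 1 := le_antisymm (by omega) hn.1
      subst this
      exact absurd hn.2 h2
    · exact h

end Pool.Agent.Results.MP_c6a83c_gt.ChiOrders
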